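import Mathlib
import Pool.Agent.H673.FB.B

/-!
# How many finite subsets of the projective line have `k` points with a small counting function?

Let `f` be a polynomial of degree `d ≥ 1` over the integers and `F` the binary form of degree `d` with
`F(x, 1) = f(x)`. The zeros of the form `b F(a, b)` are the zeros of `f` and the point at infinity. Up
to the primes of bad reduction the truncated counting function of the rational point `x = a / b` with
respect to this finite subset of the projective line is the logarithm of the radical of `b F(a, b)`.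
Vojta's inequality bounds this radical from below by a power of the height of `x`.

We count the polynomials of degree `d` with coefficients at most `X`, i.e. about `X ^ (d + 1)` finite
subsets, with given numbers of bad points: rational points `a / b` of height at most `X ^ A` with
`b F(a, b) ≠ 0` and `rad (b F(a, b)) ≤ X ^ θ`, where `A` is arbitrary and `0 ≤ θ ≤ 1`; or, more
generally, such that each prime dividing `b F(a, b)`, outside a set of primes with product at most
`X ^ θ`, divides it at least to the power `m`, where `m` is large; for instance, with `θ = 0`, the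
solutions of `f(x) = ± y ^ n` in integers with `n ≥ m`.

* For `k ≤ d` the number of the polynomials with at least `k` bad points is
  `X ^ (d + 1 - k (1 - θ) + o(1))`, and already the number of those with `0 < |f(x)| ≤ X ^ θ` at `k`
  integers `x` has the order of magnitude `X ^ (d + 1 - k (1 - θ))`: each bad point costs the factor
  `X ^ (1 - θ)`. In particular (`k = 1`, `θ < 1`) for almost all polynomials all the rational points of
  height at most `X ^ A` have a radical larger than `X ^ θ`.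
* The polynomials with more than `d` bad points lie in at most `X ^ ((d + 1) θ + o(1))` classes under the
  translations `x ↦ x + β` with rational `β`, for small `θ` much less than the power `X` suggested by
  the case `k = d`; indeed, the polynomials with the value `1` at `d` integers lie in at least
  `X / (d + 1)! - 1` classes.

Idea of the proof. There are `X ^ (θ + o(1))` possible pairs of `b` and `F(a, b)` at a bad point. If there
are `k ≤ d` bad points `a_i / b_i`, we take an integer `s` between `0` and `k d` with `f(s) ≠ f(a_i / b_i)`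
for all `i`. There are `O(X)` possible values of `f(s)`, and `a_i - s b_i` divides the nonzero integer
`F(a_i, b_i) - f(s) b_i ^ d`, so that there are `X ^ (1 + k θ + o(1))` possibilities for `f(s)`, the
bad points and the values. Now `f` is determined by its coefficients above `k`. If there are more than
`d` bad points, the differences of those with different values of `f` divide differences of values in
the same way, hence there are `X ^ ((d + 1) θ + o(1))` possibilities for the values and all the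
differences of the bad points, and `f` is determined up to a translation.
-/

set_option autoImplicit false

namespace Pool.Agent.Results.MP_4d5ce1_nt.FewBadPolynomials

/-- The value at `(a, b)` of the binary form `F` of degree `deg f` with `F(x, 1) = f(x)`. -/
def form (f : Polynomial ℤ) (a b : ℤ) : ℤ :=
  ∑ i ∈ Finset.range (f.natDegree + 1), f.coeff i * a ^ i * b ^ (f.natDegree - i)

/-- `n` is different from `0` and divisible by `p ^ m` for each of its prime divisors `p` outside of a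
finite set of primes with product at most `Q`. -/
def AlmostFull (m : ℕ) (Q : ℝ) (n : ℕ) : Prop :=
  n ≠ 0 ∧ ∃ T : Finset ℕ, (∀ p ∈ T, p.Prime) ∧ ((∏ p ∈ T, p : ℕ) : ℝ) ≤ Q ∧
    ∀ p : ℕ, p.Prime → p ∉ T → p ∣ n → p ^ m ∣ n

/-- The rational points `x = a / b` of height at most `H` such that `b F(a, b)` is almost full. -/
def BadPoints (f : Polynomial ℤ) (H m : ℕ) (Q : ℝ) : Set ℚ :=
  {x | |x.num| ≤ (H : ℤ) ∧ x.den ≤ H ∧ AlmostFull m Q ((form f x.num x.den).natAbs * x.den)}

/-- The polynomials of degree `d` with coefficients at most `X` in absolute value. -/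
def Box (d X : ℕ) : Set (Polynomial ℤ) :=
  {f | f.natDegree = d ∧ ∀ i, |f.coeff i| ≤ (X : ℤ)}

/-- `g(x) = f(x + β)` for a rational number `β`. -/
def IsTranslate (f g : Polynomial ℤ) : Prop :=
  ∃ β : ℚ, g.map (Int.castRingHom ℚ) =
    (f.map (Int.castRingHom ℚ)).comp (Polynomial.X + Polynomial.C β)

theorem exists_finset {P : Set ℚ} {k : ℕ} (h : (k : ℕ∞) ≤ P.encard) :
    ∃ F : Finset ℚ, k = F.card ∧ ∀ x ∈ F, x ∈ P := by
  obtain ⟨t, ht, ht2⟩ := Set.exists_subset_encard_eq h
  have hfin : t.Finite := Set.finite_of_encard_eq_coe ht2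
  refine ⟨hfin.toFinset, ?_, fun x hx => ht (hfin.mem_toFinset.1 hx)⟩
  rw [hfin.encard_eq_coe_toFinset_card] at ht2
  exact_mod_cast ht2.symm

theorem box_finite {d : ℕ} (hd : 1 ≤ d) (X : ℕ) : (Box d X).Finite := by
  rcases Nat.eq_zero_or_pos X with h0 | hX
  · refine Set.Finite.subset (Set.finite_empty) fun f hf => ?_
    have h1 : f = 0 := by
      ext i
      have := hf.2 i
      rw [h0, Nat.cast_zero] at this
      rw [Polynomial.coeff_zero]
      exact abs_nonpos_iff.1 this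
    have h2 := hf.1
    rw [h1, Polynomial.natDegree_zero] at h2
    omega
  · by_contra hinf
    obtain ⟨t, ht, ht2⟩ := Set.Infinite.exists_subset_card_eq hinf ((2 * X + 1) ^ (d + 2) + 1)
    have := Pool.Agent.R323.SE.card_int hd hX t fun f hf => ht hf
    omega

theorem translate_leadingCoeff {f g : Polynomial ℤ} (h : IsTranslate f g) :
    f.leadingCoeff = g.leadingCoeff := by
  obtain ⟨β, hβ⟩ := h
  have hinj : Function.Injective (Int.castRingHom ℚ) := RingHom.injective_int _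
  have h1 := congrArg Polynomial.leadingCoeff hβ
  rw [Polynomial.leadingCoeff_comp (by rw [Polynomial.natDegree_X_add_C]; exact one_ne_zero),
    Polynomial.leadingCoeff_X_add_C, one_pow, mul_one,
    Polynomial.leadingCoeff_map_of_injective hinj,
    Polynomial.leadingCoeff_map_of_injective hinj] at h1
  exact (hinj h1).symm

theorem few (d A k : ℕ) (hd : 1 ≤ d) (hA : 1 ≤ A) (hk : k ≤ d) (θ ε : ℝ) (hθ : 0 ≤ θ)
    (hε : 0 < ε) :
    ∃ (m : ℕ) (C : ℝ), ∀ X : ℕ, 1 ≤ X →
      ({f | f ∈ Box d X ∧ (k : ℕ∞) ≤ (BadPoints f (X ^ A) m ((X : ℝ) ^ θ)).encard}.ncard : ℝ) ≤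
        C * (X : ℝ) ^ ((d : ℝ) + 1 - k * (1 - θ) + ε) := by
  obtain ⟨m, C, h⟩ := Pool.Agent.H673.FB.fewk_full d A k hd hA hk θ ε hθ hε
  refine ⟨m, C, fun X hX => ?_⟩
  have hfin : {f | f ∈ Box d X ∧
      (k : ℕ∞) ≤ (BadPoints f (X ^ A) m ((X : ℝ) ^ θ)).encard}.Finite :=
    (box_finite hd X).subset fun f hf => hf.1
  rw [Set.ncard_eq_toFinset_card _ hfin]
  have e1 : (d : ℝ) + 1 - k * (1 - θ) + ε = (d : ℝ) + 1 - k + k * θ + ε := by ring
  rw [e1]
  refine h X hX _ fun f hf => ?_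
  obtain ⟨⟨h1, h2⟩, h3⟩ := hfin.mem_toFinset.1 hf
  obtain ⟨P, hP, hP2⟩ := exists_finset h3
  exact ⟨h1, h2, P, hP.le, fun x hx => hP2 x hx⟩

theorem classes (d A : ℕ) (hd : 1 ≤ d) (hA : 1 ≤ A) (θ ε : ℝ) (hθ : 0 ≤ θ) (hε : 0 < ε) :
    ∃ (m : ℕ) (C : ℝ), ∀ X : ℕ, 1 ≤ X → ∀ S : Set (Polynomial ℤ),
      S ⊆ {f | f ∈ Box d X ∧ (d : ℕ∞) < (BadPoints f (X ^ A) m ((X : ℝ) ^ θ)).encard} →
      S.Pairwise (fun f g => ¬ IsTranslate f g) →
      (S.ncard : ℝ) ≤ C * (X : ℝ) ^ (((d : ℝ) + 1) * θ + ε) := by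
  obtain ⟨m, C, h⟩ := Pool.Agent.H673.FB.elem_full d A hd hA θ ε hθ hε
  refine ⟨m, C, fun X hX S hS hT => ?_⟩
  have hfin : S.Finite := (box_finite hd X).subset fun f hf => (hS hf).1
  rw [Set.ncard_eq_toFinset_card _ hfin]
  refine h X hX _ (fun f hf => ?_) fun f hf g hg hne =>
    hT (hfin.mem_toFinset.1 hf) (hfin.mem_toFinset.1 hg) hne
  obtain ⟨⟨h1, h2⟩, h3⟩ := hS (hfin.mem_toFinset.1 hf)
  have h4 : ((d + 1 : ℕ) : ℕ∞) ≤ (BadPoints f (X ^ A) m ((X : ℝ) ^ θ)).encard := by
    have := Order.add_one_le_of_lt h3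
    exact_mod_cast this
  obtain ⟨P, hP, hP2⟩ := exists_finset h4
  exact ⟨h1, h2, P, by omega, fun x hx => hP2 x hx⟩

theorem lower (d k : ℕ) (hd : 1 ≤ d) (hk : k ≤ d) (θ : ℝ) (hθ : 0 ≤ θ) (hθ1 : θ ≤ 1) :
    ∃ (c : ℝ) (X₀ : ℕ), 0 < c ∧ ∀ X : ℕ, X₀ ≤ X →
      c * (X : ℝ) ^ ((d : ℝ) + 1 - k * (1 - θ)) ≤
      ({f | f ∈ Box d X ∧ (k : ℕ∞) ≤
        {x : ℤ | f.eval x ≠ 0 ∧ |((f.eval x : ℤ) : ℝ)| ≤ (X : ℝ) ^ θ}.encard}.ncard : ℝ) := by
  obtain ⟨n, rfl⟩ : ∃ n, d = n + k := ⟨d - k, by omega⟩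
  obtain ⟨c, X₀, hc, h⟩ := Pool.Agent.H673.FB.lowerθ n k hd θ hθ hθ1
  refine ⟨c, X₀, hc, fun X hX => ?_⟩
  obtain ⟨S, hS, hcard⟩ := h X hX
  have e1 : ((n + k : ℕ) : ℝ) + 1 - k * (1 - θ) = (n : ℝ) + 1 + k * θ := by
    push_cast
    ring
  rw [e1]
  refine hcard.trans ?_
  have h8 : (S : Set (Polynomial ℤ)) ⊆ {f | f ∈ Box (n + k) X ∧ (k : ℕ∞) ≤
      {x : ℤ | f.eval x ≠ 0 ∧ |((f.eval x : ℤ) : ℝ)| ≤ (X : ℝ) ^ θ}.encard} := fun f hf =>
    ⟨⟨(hS f hf).1, (hS f hf).2.1⟩, (hS f hf).2.2⟩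
  have h9 := Set.ncard_le_ncard h8 ((box_finite hd X).subset fun f hf => hf.1)
  rw [Set.ncard_coe_finset] at h9
  exact Nat.cast_le.2 h9

theorem lower_classes (d : ℕ) (hd : 1 ≤ d) (X : ℕ) (hX : 1 ≤ X) : ∃ S : Set (Polynomial ℤ),
    S ⊆ {f | f ∈ Box d X ∧ (d : ℕ∞) ≤ {x : ℤ | f.eval x = 1}.encard} ∧
    S.Pairwise (fun f g => ¬ IsTranslate f g) ∧
    (X : ℝ) / ((d + 1).factorial : ℝ) - 1 ≤ S.ncard := by
  obtain ⟨S, hS, hne, hcard⟩ := Pool.Agent.H673.FB.lower 0 d (by omega) X hX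
  rw [zero_add, one_mul, pow_one] at hcard
  refine ⟨S, fun f hf => ?_, fun f hf g hg hfg h => ?_, ?_⟩
  · obtain ⟨h1, h2, h3⟩ := hS f hf
    exact ⟨⟨by rw [h1, zero_add], h2⟩, h3⟩
  · exact hne rfl f hf g hg hfg (translate_leadingCoeff h)
  · rw [Set.ncard_coe_finset, hcard]
    obtain ⟨M, hM⟩ : ∃ M, M = (d + 1).factorial := ⟨_, rfl⟩
    have hM0 : 0 < M := by
      rw [hM]
      exact Nat.factorial_pos _
    have hMR : (0 : ℝ) < M := by exact_mod_cast hM0
    rw [← hM]
    have h1 : X - 1 < ((X - 1) / M + 1) * M := by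
      have := Nat.lt_div_mul_add (a := X - 1) hM0
      rw [add_mul, one_mul]
      exact this
    have h2 : X ≤ ((X - 1) / M + 1) * M := by
      generalize ((X - 1) / M + 1) * M = Z at h1
      omega
    have h3 : (X : ℝ) ≤ (((X - 1) / M : ℕ) + 1) * M := by exact_mod_cast h2
    have h4 : (X : ℝ) / M ≤ ((X - 1) / M : ℕ) + 1 := (div_le_iff₀ hMR).2 h3
    linarith

/-- **The number of the polynomials with at least `k` bad points.** Let `d ≥ 1` and `A ≥ 1`.

(0) A number `n ≠ 0` with `rad n ≤ Q` is almost full, for all `m`.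

(1) Let `k ≤ d` and `0 ≤ θ ≤ 1`. For each `ε > 0` there are `m` and `C` such that at most
`C X ^ (d + 1 - k (1 - θ) + ε)` polynomials of degree `d` with coefficients at most `X` have at least
`k` bad points of height at most `X ^ A`. On the other hand, for at least
`c X ^ (d + 1 - k (1 - θ))` of these polynomials there are at least `k` integers `x` with
`0 < |f(x)| ≤ X ^ θ`, for a constant `c > 0` and all large `X`.

(2) Let `θ ≥ 0`. For each `ε > 0` there are `m` and `C` such that a set of polynomials of degree `d`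
with coefficients at most `X`, with more than `d` bad points of height at most `X ^ A`, has at most
`C X ^ ((d + 1) θ + ε)` elements if no two of them are translates of each other.

(3) There are at least `X / (d + 1)! - 1` polynomials of degree `d` with coefficients at most `X`, no two
of which are translates of each other, which take the value `1` at `d` or more integers. -/
theorem result (d A : ℕ) (hd : 1 ≤ d) (hA : 1 ≤ A) :
    (∀ (m n : ℕ) (Q : ℝ), n ≠ 0 → ((∏ p ∈ n.primeFactors, p : ℕ) : ℝ) ≤ Q → AlmostFull m Q n) ∧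
    (∀ (k : ℕ) (θ : ℝ), k ≤ d → 0 ≤ θ → θ ≤ 1 →
      (∀ ε : ℝ, 0 < ε → ∃ (m : ℕ) (C : ℝ), ∀ X : ℕ, 1 ≤ X →
        ({f | f ∈ Box d X ∧ (k : ℕ∞) ≤ (BadPoints f (X ^ A) m ((X : ℝ) ^ θ)).encard}.ncard : ℝ) ≤
          C * (X : ℝ) ^ ((d : ℝ) + 1 - k * (1 - θ) + ε)) ∧
      ∃ (c : ℝ) (X₀ : ℕ), 0 < c ∧ ∀ X : ℕ, X₀ ≤ X →
        c * (X : ℝ) ^ ((d : ℝ) + 1 - k * (1 - θ)) ≤
        ({f | f ∈ Box d X ∧ (k : ℕ∞) ≤
          {x : ℤ | f.eval x ≠ 0 ∧ |((f.eval x : ℤ) : ℝ)| ≤ (X : ℝ) ^ θ}.encard}.ncard : ℝ)) ∧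
    (∀ θ ε : ℝ, 0 ≤ θ → 0 < ε → ∃ (m : ℕ) (C : ℝ), ∀ X : ℕ, 1 ≤ X → ∀ S : Set (Polynomial ℤ),
      S ⊆ {f | f ∈ Box d X ∧ (d : ℕ∞) < (BadPoints f (X ^ A) m ((X : ℝ) ^ θ)).encard} →
      S.Pairwise (fun f g => ¬ IsTranslate f g) →
      (S.ncard : ℝ) ≤ C * (X : ℝ) ^ (((d : ℝ) + 1) * θ + ε)) ∧
    (∀ X : ℕ, 1 ≤ X → ∃ S : Set (Polynomial ℤ),
      S ⊆ {f | f ∈ Box d X ∧ (d : ℕ∞) ≤ {x : ℤ | f.eval x = 1}.encard} ∧
      S.Pairwise (fun f g => ¬ IsTranslate f g) ∧
      (X : ℝ) / ((d + 1).factorial : ℝ) - 1 ≤ S.ncard) := by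
  refine ⟨fun m n Q hn hQ => ⟨hn, n.primeFactors, fun p hp => Nat.prime_of_mem_primeFactors hp,
    hQ, fun p hp hpT hpn => absurd (Nat.mem_primeFactors.2 ⟨hp, hpn, hn⟩) hpT⟩,
    fun k θ hk hθ hθ1 => ⟨fun ε hε => few d A k hd hA hk θ ε hθ hε, lower d k hd hk θ hθ hθ1⟩,
    classes d A hd hA, lower_classes d hd⟩

end Pool.Agent.Results.MP_4d5ce1_nt.FewBadPolynomials
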