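import Mathlib
import Pool.Agent.U168.KP.Core
import Pool.Agent.U168.KP.Fin

set_option autoImplicit false

/-!
# The abc conjecture for finite subsets of the projective line: the error term at points which
generate the field

For every number field `K`, every set `T` of primes and all distinct points `α_1, …, α_q` (`q ≥ 3`)
of the projective line over `K` the term `ε h(x)` in Vojta's inequality cannot be replaced by
`κ √h(x) / log h(x)`, for any `κ < 6.84 / [K : ℚ]`, not even for the points `x` whose cross ratio with three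
given points `α_i, α_j, α_k` generates `K`.
-/

namespace Pool.Agent.Results.MP_4d5ce1_nt.GeneratingPoints

open NumberField IsDedekindDomain

section

variable {K : Type} [Field K] [NumberField K]

/-- the absolute logarithmic height of the point with homogeneous coordinates `x`
(`Height.logHeight` is relative to `K`) -/
noncomputable def height (x : Fin 2 → K) : ℝ := Height.logHeight x / (Module.finrank ℚ K : ℝ)

/-- the local height `λ_v(a, x)` for a prime `v`:
`log (max |x_i|_v max |a_i|_v / |x_0 a_1 - x_1 a_0|_v)`, with the absolute values of `K` normalised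
relative to `K`, divided by `[K : ℚ]` -/
noncomputable def localHeight (v : HeightOneSpectrum (𝓞 K)) (a x : Fin 2 → K) : ℝ :=
  Real.log (max (FinitePlace.mk v (x 0)) (FinitePlace.mk v (x 1)) *
    max (FinitePlace.mk v (a 0)) (FinitePlace.mk v (a 1)) /
      FinitePlace.mk v (x 0 * a 1 - x 1 * a 0)) / (Module.finrank ℚ K : ℝ)

/-- the sum over the primes `v` outside `T` and over `l` of the truncated local heights
`min (λ_v(α_l, x), log N(v) / [K : ℚ])` -/
noncomputable def counting (T : Set (HeightOneSpectrum (𝓞 K))) {q : ℕ} (α : Fin q → Fin 2 → K)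
    (x : Fin 2 → K) : ℝ :=
  ∑ᶠ (v : HeightOneSpectrum (𝓞 K)) (_ : v ∉ T), ∑ l,
    min (localHeight v (α l) x) (Real.log (Ideal.absNorm v.asIdeal : ℝ) / (Module.finrank ℚ K : ℝ))

/-- the cross ratio of the points `x, a, b, c` of the projective line: the value at `x` of the
coordinate which is `0` at `a`, `∞` at `b` and `1` at `c` -/
def crossRatio (x a b c : Fin 2 → K) : K :=
  (x 0 * a 1 - x 1 * a 0) * (b 0 * c 1 - b 1 * c 0) /
    ((x 0 * b 1 - x 1 * b 0) * (a 0 * c 1 - a 1 * c 0))

end

open Pool.Agent.U168.KP Pool.Agent.W231.V in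
/-- **A lower bound for the error term at generating points.** Let `K` be a number field, `T` any set
of primes of `K`, `α_1, …, α_q` distinct points of the projective line over `K`, `α_i, α_j, α_k` three
of them, and `κ < 6.84 / [K : ℚ]`. There are points `x` of the projective line over `K`, different
from the `α_l`, of height as large as one likes and with a cross ratio with `α_i, α_j, α_k` which
generates `K` over `ℚ`, such that
`(q - 2) h(x) ≥ ∑_{v ∉ T} ∑_l λ⁽¹⁾_v(α_l, x) + κ √h(x) / log h(x)`. -/
theorem result (K : Type) [Field K] [NumberField K] (T : Set (HeightOneSpectrum (𝓞 K))) (q : ℕ)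
    (α : Fin q → Fin 2 → K) (hα : ∀ l, α l ≠ 0)
    (hα' : ∀ l l', l ≠ l' → α l 0 * α l' 1 - α l 1 * α l' 0 ≠ 0) (i j k : Fin q) (hij : i ≠ j)
    (hik : i ≠ k) (hjk : j ≠ k) (κ : ℝ) (hκ : κ < 6.84 / (Module.finrank ℚ K : ℝ)) (B : ℝ) :
    ∃ x : Fin 2 → K, (∀ l, x 0 * α l 1 - x 1 * α l 0 ≠ 0) ∧ B ≤ height x ∧
      IntermediateField.adjoin ℚ {crossRatio x (α i) (α j) (α k)} = ⊤ ∧
      counting T α x + κ * √(height x) / Real.log (height x) ≤ ((q : ℝ) - 2) * height x := by
  classical
  obtain ⟨C, T1, g3, g2, htr⟩ := transfer hij hik hjk α hα hα'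
  obtain ⟨T2, qq, hT12, hcore⟩ := core K T1
  set D : ℝ := (Module.finrank ℚ K : ℝ) with hD
  have hD1 : 1 ≤ D := by
    rw [hD]
    exact_mod_cast (Module.finrank_pos : 0 < Module.finrank ℚ K)
  have hD0 : 0 < D := by linarith
  set S1 : ℝ := ∑ v ∈ T2, ell v with hS1
  have hS10 : 0 ≤ S1 := Finset.sum_nonneg fun v _ => (ell_pos v).le
  clear_value S1
  have hqS : 0 ≤ (q : ℝ) * S1 := mul_nonneg (Nat.cast_nonneg _) hS10
  have hlq := ell_pos qq
  set Cf : ℝ := (|C| + ell qq + q * S1) / D with hCf
  clear_value Cf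
  have hasym := final_asym (D := D) (κ := κ) (C := Cf) hD1 hκ
  have hbig : ∀ᶠ n : ℕ in Filter.atTop,
      D * (|B| + Real.exp 2) + 3 * |C| + ell qq + 1 ≤ (n : ℝ) :=
    tendsto_natCast_atTop_atTop.eventually_ge_atTop _
  obtain ⟨n, ⟨S, m, a, b, hP, hH, hgain, hgen⟩, hasy, hn⟩ := (hcore.and (hasym.and hbig)).exists
  obtain ⟨x, hcr, hup, hlow, hk, himp⟩ := htr T2 S qq m a b hT12 hP
  have hSnn : 0 ≤ ∑ v ∈ S, ell v := Finset.sum_nonneg fun v _ => (ell_pos v).le
  have hCa := le_abs_self C
  have hC0 := abs_nonneg C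
  have hB0 := abs_nonneg B
  have hexp0 := Real.exp_pos 2
  have hDB : 0 ≤ D * (|B| + Real.exp 2) := by positivity
  have hge : D * (|B| + Real.exp 2) ≤ Height.logHeight x := by linarith
  have hbigC : C < Height.logHeight ![a, b] := by linarith
  obtain ⟨hdt, hsum⟩ := himp hbigC
  have hhx : |B| + Real.exp 2 ≤ height x := by
    unfold height
    rw [le_div_iff₀ hD0]
    linarith
  have hBx : B ≤ height x := by linarith [le_abs_self B]
  have hex : Real.exp 2 ≤ height x := by linarith
  have hhup : height x ≤ 16 / 6.84 ^ 2 * (n * Real.log n) ^ 2 + Cf := by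
    unfold height
    rw [div_le_iff₀ hD0]
    have e : (16 / 6.84 ^ 2 * (n * Real.log n) ^ 2 + Cf) * D =
        16 / 6.84 ^ 2 * D * (n * Real.log n) ^ 2 + (|C| + ell qq + q * S1) := by
      have e' : Cf * D = |C| + ell qq + q * S1 := by
        rw [hCf, div_mul_cancel₀ _ hD0.ne']
      rw [add_mul, e']
      ring
    rw [e]
    linarith [hqS]
  have hcomp := hasy (height x) hex hhup
  refine ⟨x, hdt, hBx, ?_, ?_⟩
  · have e : crossRatio x (α i) (α j) (α k) = a / b := hcr
    rw [e]
    exact hgen
  -- the counting function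
  have g3' : ∀ v ∉ T2, ∀ l, mxv v (α l) = 1 := fun v hv => g3 v fun h => hv (hT12 h)
  have g2' : ∀ v ∉ T2, ∀ l l', l ≠ l' → fv v (dt (α l) (α l')) = 1 :=
    fun v hv => g2 v fun h => hv (hT12 h)
  have hx0 : ∀ v : HeightOneSpectrum (𝓞 K), 0 < mxv v x := by
    intro v
    by_contra hcon
    have h0 : mxv v x = 0 := le_antisymm (not_lt.1 hcon) (mxv_nonneg v x)
    have h1 : ∀ j, x j = 0 := by
      intro j
      have h2 := le_mxv v x j
      rw [h0] at h2
      exact (map_eq_zero (fv v)).1 (le_antisymm h2 ((fv v).nonneg _))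
    apply hdt i
    unfold dt
    rw [h1 0, h1 1]
    ring
  have hfin : {v : HeightOneSpectrum (𝓞 K) | v ∉ T2 ∧ ∃ l, fv v (dt x (α l)) < mxv v x}.Finite := by
    obtain ⟨T', hT'⟩ := exists_bad
      ((Finset.univ : Finset (Fin 2)).image x ∪ (Finset.univ : Finset (Fin q)).image fun l => dt x (α l))
    refine (Finset.finite_toSet T').subset ?_
    rintro v ⟨-, l, hl⟩
    by_contra hv
    have hv' : v ∉ T' := fun h => hv h
    have h1 : ∀ j, fv v (x j) ≤ 1 := fun j => (hT' v hv' (x j) (by
      rw [Finset.mem_union]; left; exact Finset.mem_image.2 ⟨j, Finset.mem_univ _, rfl⟩)).2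
    have h2 : fv v (dt x (α l)) = 1 := (hT' v hv' (dt x (α l)) (by
      rw [Finset.mem_union]; right; exact Finset.mem_image.2 ⟨l, Finset.mem_univ _, rfl⟩)).1 (hdt l)
    rw [h2] at hl
    have h3 : mxv v x ≤ 1 := max_le (h1 0) (h1 1)
    linarith
  have hlh : ∀ v l, localHeight v (α l) x =
      Real.log (mxv v x * mxv v (α l) / fv v (dt x (α l))) / D := fun v l => rfl
  set term : HeightOneSpectrum (𝓞 K) → ℝ := fun v => ∑ l,
    min (localHeight v (α l) x) (Real.log (Ideal.absNorm v.asIdeal : ℝ) / D) with hterm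
  have hterm0 : ∀ v, 0 ≤ term v := by
    intro v
    refine Finset.sum_nonneg fun l _ => le_min ?_ ?_
    · rw [hlh]
      refine div_nonneg (Real.log_nonneg ?_) hD0.le
      rw [le_div_iff₀ ((fv v).pos (hdt l)), one_mul]
      exact fv_dt_le v x (α l)
    · exact div_nonneg (ell_pos v).le hD0.le
  have hterm1 : ∀ v, term v ≤ q * (ell v / D) := by
    intro v
    refine (Finset.sum_le_sum fun l _ => min_le_right _ _).trans ?_
    rw [Finset.sum_const, Finset.card_univ, Fintype.card_fin, nsmul_eq_mul]
    exact le_rfl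
  set Sb : Set (HeightOneSpectrum (𝓞 K)) := {v | v ∉ T2 ∧ ∃ l, fv v (dt x (α l)) < mxv v x} with hSb
  have hzero : ∀ v ∉ T2, ∀ l, ¬ fv v (dt x (α l)) < mxv v x → localHeight v (α l) x = 0 := by
    intro v hv l hl
    have h1 : fv v (dt x (α l)) = mxv v x := by
      refine le_antisymm ?_ (not_lt.1 hl)
      have := fv_dt_le v x (α l)
      rwa [g3' v hv l, mul_one] at this
    rw [hlh, g3' v hv l, mul_one, h1, div_self (hx0 v).ne', Real.log_one, zero_div]
  have hterm2 : ∀ v ∉ T2, v ∉ Sb → term v = 0 := by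
    intro v hv hvS
    refine Finset.sum_eq_zero fun l _ => ?_
    have h1 : ¬ fv v (dt x (α l)) < mxv v x := fun h => hvS ⟨hv, l, h⟩
    rw [hzero v hv l h1]
    exact min_eq_left (div_nonneg (ell_pos v).le hD0.le)
  have hterm3 : ∀ v ∉ T2, term v ≤ ell v / D := by
    intro v hv
    by_cases hvS : v ∈ Sb
    · obtain ⟨-, l, hl⟩ := hvS
      have h1 : term v = min (localHeight v (α l) x) (Real.log (Ideal.absNorm v.asIdeal : ℝ) / D) := by
        refine Finset.sum_eq_single l (fun m _ hm => ?_) (fun h => absurd (Finset.mem_univ l) h)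
        have h2 : ¬ fv v (dt x (α m)) < mxv v x := fun h =>
          not_both v x (α l) (α m) (g3' v hv l).le (g3' v hv m).le (g2' v hv l m (Ne.symm hm)) hl h
        rw [hzero v hv m h2]
        exact min_eq_left (div_nonneg (ell_pos v).le hD0.le)
      rw [h1]
      exact min_le_right _ _
    · rw [hterm2 v hv hvS]
      exact div_nonneg (ell_pos v).le hD0.le
  have hcount : counting T α x ≤ (q * S1 + ∑ v ∈ hfin.toFinset, ell v) / D := by
    have h1 : counting T α x = ∑ᶠ v : HeightOneSpectrum (𝓞 K), (if v ∉ T then term v else 0) := by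
      unfold counting
      refine finsum_congr fun v => ?_
      by_cases hv : v ∉ T
      · rw [if_pos hv, finsum_eq_single _ hv (fun h hne => absurd rfl hne)]
      · rw [if_neg hv]
        have : IsEmpty (v ∉ T) := ⟨hv⟩
        exact finsum_of_isEmpty _
    have h2 : ∑ᶠ v : HeightOneSpectrum (𝓞 K), (if v ∉ T then term v else 0) =
        ∑ v ∈ T2 ∪ hfin.toFinset, (if v ∉ T then term v else 0) := by
      refine finsum_eq_sum_of_support_subset _ fun v hv => ?_
      rw [Function.mem_support] at hv
      rw [Finset.mem_coe, Finset.mem_union, Set.Finite.mem_toFinset]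
      by_contra hcon
      push Not at hcon
      apply hv
      rw [hterm2 v hcon.1 hcon.2]
      simp
    have h3 : ∀ v, (if v ∉ T then term v else 0) ≤ term v := by
      intro v
      split_ifs
      · exact hterm0 v
      · exact le_rfl
    have h4 : ∑ v ∈ T2 ∪ hfin.toFinset, term v ≤ ∑ v ∈ T2, term v + ∑ v ∈ hfin.toFinset, term v := by
      rw [← Finset.sum_union_inter]
      have : 0 ≤ ∑ v ∈ T2 ∩ hfin.toFinset, term v := Finset.sum_nonneg fun v _ => hterm0 v
      linarith
    have h5 : ∑ v ∈ T2, term v ≤ q * S1 / D := by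
      refine (Finset.sum_le_sum fun v _ => hterm1 v).trans ?_
      rw [hS1, ← Finset.mul_sum, ← Finset.sum_div, mul_div_assoc]
    have h6 : ∑ v ∈ hfin.toFinset, term v ≤ (∑ v ∈ hfin.toFinset, ell v) / D := by
      rw [Finset.sum_div]
      exact Finset.sum_le_sum fun v hv => hterm3 v (hfin.mem_toFinset.1 hv).1
    rw [h1, h2, add_div]
    exact (Finset.sum_le_sum fun v _ => h3 v).trans (h4.trans (add_le_add h5 h6))
  have hs := hsum hfin.toFinset fun v hv => hfin.mem_toFinset.1 hv
  have hs' : (∑ v ∈ hfin.toFinset, ell v) / D + 2 * n / D ≤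
      ((q : ℝ) - 2) * height x + (|C| + ell qq) / D := by
    have e1 : (∑ v ∈ hfin.toFinset, ell v) / D + 2 * n / D =
        (∑ v ∈ hfin.toFinset, ell v + 2 * n) / D := by rw [add_div]
    have e2 : ((q : ℝ) - 2) * height x + (|C| + ell qq) / D =
        (((q : ℝ) - 2) * Height.logHeight x + (|C| + ell qq)) / D := by
      unfold height
      rw [← hD]
      field_simp
    rw [e1, e2]
    refine div_le_div_of_nonneg_right ?_ hD0.le
    linarith
  have e3 : Cf = (|C| + ell qq) / D + q * S1 / D := by rw [hCf, add_div]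
  rw [add_div] at hcount
  linarith

end Pool.Agent.Results.MP_4d5ce1_nt.GeneratingPoints
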