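import Mathlib
import Pool.Agent.U964.ML.Pts

/-!
# The truncated inequality for all finite sets of rational points of the line, at the points with one exponent

Let `α_1, …, α_q` be distinct points of `P¹(ℚ)`, `S` a finite set of primes and `ε > 0`. We prove

`(q - 2 - ε) h(x) ≤ ∑_{p ∉ S} ∑_l λ_p^(1)(α_l, x) + C`

for ALL `x = (u : v)` in `P¹(ℚ)` such that for two of the points, `α_i`, `α_j`, the values of the linear forms at
`x` have all their exponents outside `S` in `{0, n}`, where `n ≥ 1` is ARBITRARY, and the values of the other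
forms are square-free up to a bounded factor. The constant `C` does not depend on `n`; for `n` large in terms of
`S`, the `α_l` and `ε` the exponents at `α_i`, `α_j` may be arbitrary multiples of `n`. If the exponents are in
`{0, n, …, k n}` and those of the other forms at most `k`, the inequality holds with the factor `k` on the right.

Near the points other than `α_i`, `α_j` the proof uses a lower bound for linear forms in logarithms of
rational numbers which is linear in the height of the number with coefficient `n` (`U964.ML`), for large `n`,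
and Ridout's theorem near algebraic numbers, for small `n` (`U964.ML.Uni`).
-/

set_option autoImplicit false

namespace Pool.Agent.Results.MP_4d5ce1_nt.OneExponentAtTwoPoints

/-- the value at `(u, v)` of the linear form which vanishes at `α` -/
def form (α : ℤ × ℤ) (u v : ℤ) : ℤ := u * α.2 - v * α.1

/-- the logarithmic height of the point `(u : v)`, `u`, `v` coprime -/
noncomputable def height (u v : ℤ) : ℝ := Real.log (max |(u : ℝ)| |(v : ℝ)|)

/-- the truncated counting function of `α` outside `S` at `(u : v)`: the sum of `log p` over the primes `p`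
outside `S` at which `(u : v)` and `α` coincide modulo `p` -/
noncomputable def counting (S : Finset ℕ) (α : ℤ × ℤ) (u v : ℤ) : ℝ :=
  ∑ p ∈ (form α u v).natAbs.primeFactors with p ∉ S, Real.log p

/-- all exponents in the factorisation of `w` at the primes outside `S` are divisible by `n` -/
def Multiples (S : Finset ℕ) (n : ℕ) (w : ℤ) : Prop :=
  ∀ p : ℕ, p.Prime → p ∉ S → n ∣ w.natAbs.factorization p

/-- all exponents in the factorisation of `w` at the primes outside `S` are at most `e` -/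
def ExponentsLe (S : Finset ℕ) (e : ℕ) (w : ℤ) : Prop :=
  ∀ p : ℕ, p.Prime → p ∉ S → w.natAbs.factorization p ≤ e

theorem result (S : Finset ℕ) (q : ℕ) (α : Fin q → ℤ × ℤ)
    (hdist : ∀ l m, l ≠ m → (α l).1 * (α m).2 - (α l).2 * (α m).1 ≠ 0) (i j : Fin q) (hij : i ≠ j)
    (k : ℕ) (hk : 1 ≤ k) (B ε : ℝ) (hε : 0 < ε) : ∃ (C : ℝ) (N : ℕ), ∀ u v : ℤ, IsCoprime u v →
      (∀ l, form (α l) u v ≠ 0) → ∀ n : ℕ, 1 ≤ n →
      Multiples S n (form (α i) u v) → Multiples S n (form (α j) u v) →
      (N ≤ n ∨ (ExponentsLe S (k * n) (form (α i) u v) ∧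
        ExponentsLe S (k * n) (form (α j) u v))) →
      (∀ l, l ≠ i → l ≠ j →
        Real.log |(form (α l) u v : ℝ)| ≤ B + k * counting S (α l) u v) →
      ((q : ℝ) - 2 - ε) * height u v ≤ k * ∑ l, counting S (α l) u v + C := by
  classical
  obtain ⟨η, hη⟩ : ∃ η : ℝ, η = min ε (1 / 2) := ⟨_, rfl⟩
  have hη0 : 0 < η := by rw [hη]; exact lt_min hε (by norm_num)
  have hη1 : η < 1 := by rw [hη]; exact (min_le_right _ _).trans_lt (by norm_num)
  have hηε : η ≤ ε := by rw [hη]; exact min_le_left _ _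
  have hji : j ≠ i := Ne.symm hij
  -- the constants of the forms
  have hone : ∀ l : {l : Fin q // l ≠ i ∧ l ≠ j}, ∃ (C : ℝ) (N : ℕ), ∀ u v : ℤ,
      form (α i) u v ≠ 0 → form (α j) u v ≠ 0 → form (α l) u v ≠ 0 →
      ∀ H : ℝ, 1 ≤ H → H = max |(u : ℝ)| |(v : ℝ)| → ∀ n : ℕ, 1 ≤ n →
      Multiples S n (form (α i) u v) → Multiples S n (form (α j) u v) →
      (N ≤ n → (1 - η) * Real.log H - C ≤ Real.log |(form (α l) u v : ℝ)|) ∧
      (1 - η) * Real.log H - C ≤ Real.log |(form (α l) u v : ℝ)| +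
        (Real.log (Pool.Agent.U964.ML.root S n (form (α i) u v).natAbs) +
          Real.log (Pool.Agent.U964.ML.root S n (form (α j) u v).natAbs)) := fun l =>
    Pool.Agent.U964.ML.one_form S (α i) (α j) (α l) (hdist i j hij) (hdist j l (Ne.symm l.2.2))
      (hdist l i l.2.1) η hη0 hη1
  choose Cf Nf hf using hone
  obtain ⟨A, hA⟩ : ∃ A : ℝ, A = ∑ l, (|((α l).1 : ℝ)| + |((α l).2 : ℝ)|) + 1 := ⟨_, rfl⟩
  have hAl : ∀ l, |((α l).1 : ℝ)| ≤ A ∧ |((α l).2 : ℝ)| ≤ A := by
    intro l
    have h1 := Finset.single_le_sum (f := fun l => |((α l).1 : ℝ)| + |((α l).2 : ℝ)|)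
      (fun m _ => add_nonneg (abs_nonneg _) (abs_nonneg _)) (Finset.mem_univ l)
    have h2 := abs_nonneg ((α l).1 : ℝ)
    have h3 := abs_nonneg ((α l).2 : ℝ)
    rw [hA]
    constructor <;> linarith
  have hA1 : 1 ≤ A := by
    rw [hA]
    have : 0 ≤ ∑ l, (|((α l).1 : ℝ)| + |((α l).2 : ℝ)|) :=
      Finset.sum_nonneg fun m _ => add_nonneg (abs_nonneg _) (abs_nonneg _)
    linarith
  obtain ⟨c, hc⟩ : ∃ c : ℝ, c = Real.log (2 * A) := ⟨_, rfl⟩
  have hc0 : 0 ≤ c := by rw [hc]; exact Real.log_nonneg (by linarith)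
  obtain ⟨C1, hC1⟩ : ∃ C1 : ℝ, C1 = ∑ l, |Cf l| := ⟨_, rfl⟩
  have hC1l : ∀ l, Cf l ≤ C1 := fun l => by
    rw [hC1]
    exact (le_abs_self _).trans
      (Finset.single_le_sum (f := fun l => |Cf l|) (fun m _ => abs_nonneg _) (Finset.mem_univ l))
  have hC10 : 0 ≤ C1 := by rw [hC1]; exact Finset.sum_nonneg fun m _ => abs_nonneg _
  refine ⟨q * c + C1 + q * |B|, ∑ l, Nf l, ?_⟩
  intro u v hcop hne n hn hMi hMj hor hB
  obtain ⟨H, hH⟩ : ∃ H : ℝ, H = max |(u : ℝ)| |(v : ℝ)| := ⟨_, rfl⟩
  have hH1 : 1 ≤ H := by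
    have h1 : u ≠ 0 ∨ v ≠ 0 := by
      by_contra h0
      push Not at h0
      obtain ⟨a, b, hab⟩ := hcop
      rw [h0.1, h0.2, mul_zero, mul_zero, add_zero] at hab
      exact zero_ne_one hab
    rw [hH]
    rcases h1 with h1 | h1
    · have := Int.one_le_abs h1
      exact le_max_of_le_left (by exact_mod_cast this)
    · have := Int.one_le_abs h1
      exact le_max_of_le_right (by exact_mod_cast this)
  have hH0 : 0 < H := by linarith
  obtain ⟨h, hh⟩ : ∃ h : ℝ, h = Real.log H := ⟨_, rfl⟩
  have hh0 : 0 ≤ h := by rw [hh]; exact Real.log_nonneg hH1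
  have hheight : height u v = h := by rw [height, ← hH, hh]
  rw [hheight]
  obtain ⟨f, hfdef⟩ : ∃ f : Fin q → ℝ, f = fun l => Real.log |(form (α l) u v : ℝ)| := ⟨_, rfl⟩
  obtain ⟨t, ht⟩ : ∃ t : Fin q → ℝ, t = fun l => counting S (α l) u v := ⟨_, rfl⟩
  have htn : ∀ l, 0 ≤ t l := fun l => by
    rw [ht]
    exact Pool.Agent.U964.ML.cnt_nonneg S _
  have hkr : (1:ℝ) ≤ k := by exact_mod_cast hk
  -- two forms are not both small
  have htwo : ∀ l m, l ≠ m → h - c ≤ f l ∨ h - c ≤ f m := by
    intro l m hlm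
    obtain ⟨M, hM⟩ : ∃ M : ℝ, M = max |(form (α l) u v : ℝ)| |(form (α m) u v : ℝ)| := ⟨_, rfl⟩
    have h1 := Pool.Agent.U964.ML.lf_two (α l) (α m) A (hAl l).1 (hAl l).2 (hAl m).1 (hAl m).2
      (hdist l m hlm) u v M (by rw [hM]; exact le_max_left _ _) (by rw [hM]; exact le_max_right _ _)
    rw [← hH] at h1
    have hM0 : 0 < M := by
      by_contra h0
      rw [not_lt] at h0
      nlinarith
    have h2 := Real.log_le_log hH0 h1
    rw [Real.log_mul (by linarith) hM0.ne', ← hc, ← hh] at h2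
    rcases le_total |(form (α l) u v : ℝ)| |(form (α m) u v : ℝ)| with h3 | h3
    · right
      rw [max_eq_right h3] at hM
      rw [hfdef]
      dsimp only
      rw [← hM]
      linarith
    · left
      rw [max_eq_left h3] at hM
      rw [hfdef]
      dsimp only
      rw [← hM]
      linarith
  -- the bound with the roots
  obtain ⟨ρ, hρ0, hρ1, hρ2⟩ : ∃ ρ : ℝ, 0 ≤ ρ ∧ ρ ≤ k * (t i + t j) ∧
      ∀ l, l ≠ i → l ≠ j → (1 - η) * h - C1 ≤ f l + ρ := by
    by_cases hN : ∑ l, Nf l ≤ n
    · refine ⟨0, le_rfl, ?_, ?_⟩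
      · have := htn i
        have := htn j
        positivity
      · intro l hli hlj
        have h1 := (hf ⟨l, hli, hlj⟩ u v (hne i) (hne j) (hne l) H hH1 hH n hn hMi hMj).1
          ((Finset.single_le_sum (f := Nf) (fun _ _ => Nat.zero_le _) (Finset.mem_univ _)).trans hN)
        have h2 := hC1l ⟨l, hli, hlj⟩
        rw [← hh] at h1
        rw [hfdef]
        dsimp only at h1 ⊢
        linarith
    · obtain ⟨hEi, hEj⟩ := hor.resolve_left hN
      have hri : (1:ℝ) ≤ Pool.Agent.U964.ML.root S n (form (α i) u v).natAbs := by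
        exact_mod_cast Pool.Agent.U964.ML.root_pos S n _
      have hrj : (1:ℝ) ≤ Pool.Agent.U964.ML.root S n (form (α j) u v).natAbs := by
        exact_mod_cast Pool.Agent.U964.ML.root_pos S n _
      refine ⟨Real.log (Pool.Agent.U964.ML.root S n (form (α i) u v).natAbs) +
          Real.log (Pool.Agent.U964.ML.root S n (form (α j) u v).natAbs),
        add_nonneg (Real.log_nonneg hri) (Real.log_nonneg hrj), ?_, ?_⟩
      · have h1 := Pool.Agent.U964.ML.log_root S n k (form (α i) u v).natAbs hEi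
        have h2 := Pool.Agent.U964.ML.log_root S n k (form (α j) u v).natAbs hEj
        have h3 : t i = Pool.Agent.U964.ML.cnt S (form (α i) u v).natAbs := by rw [ht]; rfl
        have h4 : t j = Pool.Agent.U964.ML.cnt S (form (α j) u v).natAbs := by rw [ht]; rfl
        rw [h3, h4]
        linarith
      · intro l hli hlj
        have h1 := (hf ⟨l, hli, hlj⟩ u v (hne i) (hne j) (hne l) H hH1 hH n hn hMi hMj).2
        have h2 := hC1l ⟨l, hli, hlj⟩
        rw [← hh] at h1
        rw [hfdef]
        dsimp only at h1 ⊢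
        linarith
  -- the sum over the other forms
  obtain ⟨E, hE⟩ : ∃ E : Finset (Fin q), E = (Finset.univ.erase i).erase j := ⟨_, rfl⟩
  have hjm : j ∈ (Finset.univ : Finset (Fin q)).erase i :=
    Finset.mem_erase.2 ⟨hji, Finset.mem_univ j⟩
  have hcard : (E.card : ℝ) = (q : ℝ) - 2 := by
    have h1 : E.card + 2 = q := by
      have h2 : (Finset.univ : Finset (Fin q)).card = q := Finset.card_fin q
      have h3 := Finset.card_erase_add_one (Finset.mem_univ i)
      have h4 := Finset.card_erase_add_one hjm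
      rw [hE]
      omega
    have h2 : ((E.card + 2 : ℕ) : ℝ) = q := by rw [h1]
    push_cast at h2
    linarith
  have hmemE : ∀ l ∈ E, l ≠ i ∧ l ≠ j := by
    intro l hl
    rw [hE, Finset.mem_erase, Finset.mem_erase] at hl
    exact ⟨hl.2.1, hl.1⟩
  have hsumT : ∑ l, t l = ∑ l ∈ E, t l + t j + t i := by
    rw [hE, Finset.sum_erase_add _ _ hjm, Finset.sum_erase_add _ _ (Finset.mem_univ i)]
  have hq0 : (0:ℝ) ≤ q := Nat.cast_nonneg _
  have hmain : ((q:ℝ) - 2 - η) * h - q * c - C1 ≤ ∑ l ∈ E, f l + ρ := by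
    by_cases hsm : ∃ l ∈ E, f l < h - c
    · obtain ⟨l, hlE, hl⟩ := hsm
      obtain ⟨hli, hlj⟩ := hmemE l hlE
      have h1 := hρ2 l hli hlj
      have h2 : ((E.erase l).card : ℝ) * (h - c) ≤ ∑ m ∈ E.erase l, f m := by
        rw [← nsmul_eq_mul]
        refine Finset.card_nsmul_le_sum _ _ _ fun m hm => ?_
        rcases htwo l m (Ne.symm (Finset.mem_erase.1 hm).1) with h3 | h3
        · linarith
        · exact h3
      have h3 : ((E.erase l).card : ℝ) = (q:ℝ) - 3 := by
        have h4 := Finset.card_erase_add_one hlE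
        have h5 : (((E.erase l).card + 1 : ℕ) : ℝ) = E.card := by rw [h4]
        push_cast at h5
        linarith
      have h4 := Finset.sum_erase_add E f hlE
      have h5 : ((q:ℝ) - 3) * (h - c) = ((q:ℝ) - 3) * h - q * c + 3 * c := by ring
      rw [h3, h5] at h2
      have h6 : ((q:ℝ) - 2 - η) * h = ((q:ℝ) - 3) * h + (1 - η) * h := by ring
      rw [h6]
      linarith
    · push Not at hsm
      have h2 : (E.card : ℝ) * (h - c) ≤ ∑ m ∈ E, f m := by
        rw [← nsmul_eq_mul]
        exact Finset.card_nsmul_le_sum _ _ _ hsm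
      rw [hcard] at h2
      have h5 : ((q:ℝ) - 2) * (h - c) = ((q:ℝ) - 2) * h - q * c + 2 * c := by ring
      rw [h5] at h2
      have h6 : ((q:ℝ) - 2 - η) * h = ((q:ℝ) - 2) * h - η * h := by ring
      have h7 : 0 ≤ η * h := mul_nonneg hη0.le hh0
      rw [h6]
      linarith
  have hsumf : ∑ l ∈ E, f l ≤ q * |B| + k * ∑ l ∈ E, t l := by
    calc ∑ l ∈ E, f l ≤ ∑ l ∈ E, (|B| + k * t l) := by
          refine Finset.sum_le_sum fun l hl => ?_
          obtain ⟨hli, hlj⟩ := hmemE l hl
          have h1 := hB l hli hlj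
          have h2 := le_abs_self B
          rw [hfdef, ht]
          dsimp only
          linarith
      _ = (E.card : ℝ) * |B| + k * ∑ l ∈ E, t l := by
          rw [Finset.sum_add_distrib, Finset.sum_const, nsmul_eq_mul, Finset.mul_sum]
      _ ≤ q * |B| + k * ∑ l ∈ E, t l := by
          rw [hcard]
          have := abs_nonneg B
          nlinarith
  have hfin : ((q:ℝ) - 2 - ε) * h ≤ ((q:ℝ) - 2 - η) * h :=
    mul_le_mul_of_nonneg_right (by linarith) hh0
  have hsT : ∑ l, counting S (α l) u v = ∑ l, t l := by rw [ht]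
  rw [hsT, hsumT]
  linarith

end Pool.Agent.Results.MP_4d5ce1_nt.OneExponentAtTwoPoints
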