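import Pool.Agent.U663.SD.QPts
import Pool.Agent.N906.QP.All

/-!
# The exceptions to Vojta's inequality on the line: the defect is shared equally by the points

`K` is a number field of degree `d`, `T` a finite set of primes, `α_1, …, α_q` (`q ≥ 2`) are different
points of `P¹(K)`, `0 < κ < 6 / 7` (or `q = 3` and `0 < κ < 1`) and `c` is real. Consider the points `x`
of `P¹(K)` with `H(x) ≤ B` and `N_T(x) ≤ (q - κ) h(x) + c`. All but a proportion
`exp (- η √(log B / log log B))` of them look the same: for each of the points `α_l`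

* the truncated counting function of `α_l` is `(1 - κ / q + o(1)) h(x)`: the defect is shared equally;
* the counting function without truncation is at least `(1 - o(1)) h(x)`: the closeness of `x` to `α_l` at
  the places at infinity and in `T` plays no role;
* the number of the primes outside `T` at which `x` is close to `α_l` to the order at least two is
  `(1 + o(1)) √((2 κ d / q) log B / log log B)`, and the product of the norms of these primes is `B ^ o(1)`.
-/

set_option autoImplicit false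

open NumberField IsDedekindDomain Filter Topology

namespace Pool.Agent.Results.MP_4d5ce1_nt.SharedDefect

section defs

variable {K : Type} [Field K] [NumberField K]

/-- the absolute logarithmic height of a point (`Height.logHeight` is relative to `K`) -/
noncomputable def height (x : Projectivization K (Fin 2 → K)) : ℝ :=
  Height.logHeight x.rep / (Module.finrank ℚ K : ℝ)

/-- the local height `λ_v(a, x)` for a prime `v`:
`log (max |x_i|_v max |a_i|_v / |x_0 a_1 - x_1 a_0|_v)`, with the absolute values of `K` normalised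
relative to `K`, divided by `[K : ℚ]` -/
noncomputable def localHeight (v : HeightOneSpectrum (𝓞 K)) (a : Fin 2 → K)
    (x : Projectivization K (Fin 2 → K)) : ℝ :=
  Real.log (max (FinitePlace.mk v (x.rep 0)) (FinitePlace.mk v (x.rep 1)) *
    max (FinitePlace.mk v (a 0)) (FinitePlace.mk v (a 1)) /
      FinitePlace.mk v (x.rep 0 * a 1 - x.rep 1 * a 0)) / (Module.finrank ℚ K : ℝ)

/-- `log N(v) / [K : ℚ]` -/
noncomputable def size (v : HeightOneSpectrum (𝓞 K)) : ℝ :=
  Real.log (Ideal.absNorm v.asIdeal : ℝ) / (Module.finrank ℚ K : ℝ)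

/-- the truncated counting function of the point `a`: the sum over the primes `v` outside `T` of the
truncated local heights `min (λ_v(a, x), log N(v) / [K : ℚ])` -/
noncomputable def truncated (T : Set (HeightOneSpectrum (𝓞 K))) (a : Fin 2 → K)
    (x : Projectivization K (Fin 2 → K)) : ℝ :=
  ∑ᶠ (v : HeightOneSpectrum (𝓞 K)) (_ : v ∉ T), min (localHeight v a x) (size v)

/-- the counting function of the point `a` without truncation -/
noncomputable def full (T : Set (HeightOneSpectrum (𝓞 K))) (a : Fin 2 → K)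
    (x : Projectivization K (Fin 2 → K)) : ℝ :=
  ∑ᶠ (v : HeightOneSpectrum (𝓞 K)) (_ : v ∉ T), localHeight v a x

/-- the primes outside `T` at which the local height is at least `2 log N(v) / [K : ℚ]` -/
def double (T : Set (HeightOneSpectrum (𝓞 K))) (a : Fin 2 → K)
    (x : Projectivization K (Fin 2 → K)) : Set (HeightOneSpectrum (𝓞 K)) :=
  {v | v ∉ T ∧ 2 * size v ≤ localHeight v a x}

/-- the points `x` different from the `α_l`, of height at most `B`, with `N_T(x) ≤ (q - κ) h(x) + c` -/
def Points (T : Set (HeightOneSpectrum (𝓞 K))) {q : ℕ} (α : Fin q → Fin 2 → K) (κ c B : ℝ) :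
    Set (Projectivization K (Fin 2 → K)) :=
  {x | (∀ l, x.rep 0 * α l 1 - x.rep 1 * α l 0 ≠ 0) ∧ Real.exp (height x) ≤ B ∧
    ∑ l, truncated T (α l) x ≤ ((q : ℝ) - κ) * height x + c}

/-- the behaviour of `x` with respect to the point `a` is typical, up to `ε` (here `b = κ / q`) -/
structure Typical (T : Set (HeightOneSpectrum (𝓞 K))) (b ε B : ℝ) (a : Fin 2 → K)
    (x : Projectivization K (Fin 2 → K)) : Prop where
  /-- the truncated counting function is `(1 - b + O(ε)) h(x)` -/
  truncated : |truncated T a x - (1 - b) * height x| ≤ ε * height x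
  /-- the counting function is at least `(1 - ε) h(x)` -/
  full : (1 - ε) * height x ≤ full T a x
  /-- the number of the primes with a double contact -/
  number : |((double T a x).ncard : ℝ) -
    √(2 * b * (Module.finrank ℚ K : ℝ) * Real.log B / Real.log (Real.log B))| ≤
      ε * √(Real.log B / Real.log (Real.log B))
  /-- the product of the norms of these primes is at most `B ^ (d ε)` -/
  product : ∑ᶠ (v : HeightOneSpectrum (𝓞 K)) (_ : v ∈ double T a x), size v ≤ ε * Real.log B

/-- the points of `Points T α κ c B` which are not typical with respect to all the `α_l` -/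
def Atypical (T : Set (HeightOneSpectrum (𝓞 K))) {q : ℕ} (α : Fin q → Fin 2 → K) (κ c ε B : ℝ) :
    Set (Projectivization K (Fin 2 → K)) :=
  {x | x ∈ Points T α κ c B ∧ ∃ l, ¬ Typical T (κ / q) ε B (α l) x}

end defs

open Pool.Agent.N906.KG Pool.Agent.U663.SD Pool.Agent.H691R3 Pool.Agent.W223.AK
open Pool.Agent.N575.QP Pool.Agent.N170.KG Pool.Agent.N401.QP

variable {K : Type} [Field K] [NumberField K] {q : ℕ}

theorem deg_pos : (0 : ℝ) < Module.finrank ℚ K := by
  exact_mod_cast (Module.finrank_pos (R := ℚ) (M := K))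

theorem deg_one : (1 : ℝ) ≤ Module.finrank ℚ K := by
  exact_mod_cast Nat.one_le_iff_ne_zero.2 (Module.finrank_pos (R := ℚ) (M := K)).ne'

theorem height_eq (x : Projectivization K (Fin 2 → K)) : height x = hh x := rfl

theorem truncated_eq (T : Set (Pr K)) (a : Fin 2 → K) (x : Projectivization K (Fin 2 → K)) :
    truncated T a x = ncl T a x := rfl

theorem full_eq (T : Set (Pr K)) (a : Fin 2 → K) (x : Projectivization K (Fin 2 → K)) :
    full T a x = ful T a x := rfl

theorem double_eq (T : Set (Pr K)) (a : Fin 2 → K) (x : Projectivization K (Fin 2 → K)) :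
    double T a x = sqs T a x := rfl

theorem points_sub {T : Set (Pr K)} {α : Fin q → Fin 2 → K} {κ c L : ℝ} :
    Points T α κ c (Real.exp L) ⊆ pts K (Module.finrank ℚ K * L) := by
  rintro p ⟨-, h1, -⟩
  exact exp_hh.1 h1

theorem points_finite (T : Set (Pr K)) (α : Fin q → Fin 2 → K) (κ c B : ℝ) :
    (Points T α κ c B).Finite := by
  rcases le_or_gt B 0 with hB | hB
  · refine Set.Finite.subset Set.finite_empty ?_
    rintro p ⟨-, h1, -⟩
    exact absurd (Real.exp_pos (height p)) (not_lt.2 (h1.trans hB))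
  · rw [← Real.exp_log hB]
    exact (pts_finite K _).subset points_sub

/-- the upper bound for the points which are not typical -/
theorem atypical_le {κ₁ : ℝ} (hq : 1 ≤ q) (hκ₁ : κ₁ ≤ 1) (hbig : S_BIGQ K q κ₁) {T : Set (Pr K)}
    (hT : T.Finite) {α : Fin q → Fin 2 → K} (hα0 : ∀ i, α i ≠ 0)
    (hα : ∀ i j, i ≠ j → α i 0 * α j 1 - α i 1 * α j 0 ≠ 0) {κ c ε : ℝ} (h0 : 0 < κ) (h1 : κ < κ₁)
    (hε : 0 < ε) : ∃ g : ℝ, 0 < g ∧ ∃ X₀ : ℝ, ∀ X : ℝ, X₀ ≤ X →
      ((Atypical T α κ c ε (Real.exp (X / Module.finrank ℚ K))).ncard : ℝ) ≤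
        Real.exp ((2 - κ) * X + (q * √(κ / q) - g) * √(8 * X / Real.log X)) + 1 := by
  classical
  obtain ⟨d, hd⟩ : ∃ d : ℝ, d = Module.finrank ℚ K := ⟨_, rfl⟩
  have hd0 : 0 < d := by rw [hd]; exact deg_pos
  have hd1 : 1 ≤ d := by rw [hd]; exact deg_one
  have hq0 : (0 : ℝ) < q := by exact_mod_cast hq
  have hq1 : (1 : ℝ) ≤ q := by exact_mod_cast hq
  have hA := al_pr hα0 hα
  obtain ⟨⟨S₁, hS₁⟩, hA2⟩ := (basq_all K) q (pr α) hq hA
  obtain ⟨S, hS⟩ : ∃ S : Finset (Pr K), S = S₁ ∪ hT.toFinset := ⟨_, rfl⟩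
  have hTS : T ⊆ ↑S := by
    intro v hv
    rw [hS, Finset.coe_union]
    exact Or.inr (Finset.mem_coe.2 (hT.mem_toFinset.2 hv))
  have hGα : Gd S (pr α) := hS₁ S (by rw [hS]; exact Finset.subset_union_left)
  obtain ⟨C₁, -, hA3⟩ := hA2 _ hGα
  obtain ⟨Λ, hΛ⟩ : ∃ Λ : ℝ, Λ = ∑ v ∈ S, Real.log (Nv v) := ⟨_, rfl⟩
  have hΛ0 : 0 ≤ Λ := by rw [hΛ]; exact Finset.sum_nonneg fun v _ => (log_Nv_pos v).le
  obtain ⟨C₀, hC₀⟩ : ∃ C₀ : ℝ, C₀ = Λ + S.card + d * |c| := ⟨_, rfl⟩
  have hdc : 0 ≤ d * |c| := by positivity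
  have hC0 : 0 ≤ C₀ := by rw [hC₀]; positivity
  obtain ⟨b, hb⟩ : ∃ b : ℝ, b = κ / q := ⟨_, rfl⟩
  have hb0 : 0 < b := by rw [hb]; positivity
  have hb1 : b ≤ 1 := by rw [hb, div_le_one hq0]; linarith
  obtain ⟨g, hg, X₀, hX₀, h⟩ := few (K := K) (q := q) hq hκ₁ (basq_all K) (cellq_all K) (gupk_all K)
    hbig hA hGα (κ := κ) (ε := ε / (2 * d)) (C₀ := C₀) h0 h1 (by positivity) hC0
  obtain ⟨L₀, hL₀⟩ := eventually_atTop.1 ((main_term hd1 hb0.le (show 0 < ε / 2 by positivity)).and
    (eventually_ge_atTop (3 : ℝ)))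
  refine ⟨g, hg, max X₀ (d * L₀), fun X hX => ?_⟩
  obtain ⟨L, hLX⟩ : ∃ L : ℝ, L = X / d := ⟨_, rfl⟩
  have hXL : X = d * L := by rw [hLX]; field_simp
  have hLL : L₀ ≤ L := by
    rw [hLX, le_div_iff₀ hd0]
    linarith [(le_max_right X₀ (d * L₀)).trans hX]
  obtain ⟨k1, k2⟩ := hL₀ L hLL
  rw [← hd, ← hLX]
  rw [← hXL] at k1
  have hX0 : 0 < X := by rw [hXL]; positivity
  have hfin : (Atypical T α κ c ε (Real.exp L)).Finite :=
    (points_finite T α κ c _).subset fun x hx => hx.1
  obtain ⟨U, hU⟩ : ∃ U : Finset (Projectivization K (Fin 2 → K)), U = hfin.toFinset := ⟨_, rfl⟩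
  have hUm : ∀ p, p ∈ U ↔ p ∈ Atypical T α κ c ε (Real.exp L) := fun p => by
    rw [hU, Set.Finite.mem_toFinset]
  have hcard : (Atypical T α κ c ε (Real.exp L)).ncard = U.card := by
    rw [hU, Set.ncard_eq_toFinset_card _ hfin]
  rw [hcard]
  obtain ⟨U₁, hU₁⟩ : ∃ U₁, U₁ = U.filter (fun p => p.rep 1 ≠ 0) := ⟨_, rfl⟩
  obtain ⟨U₂, hU₂⟩ : ∃ U₂, U₂ = U.filter (fun p => p.rep 1 = 0) := ⟨_, rfl⟩
  have hsplit : U.card ≤ U₁.card + U₂.card := by
    have h : U ⊆ U₁ ∪ U₂ := by
      intro p hp
      rw [Finset.mem_union, hU₁, hU₂, Finset.mem_filter, Finset.mem_filter]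
      by_cases g1 : p.rep 1 = 0
      · exact Or.inr ⟨hp, g1⟩
      · exact Or.inl ⟨hp, g1⟩
    exact (Finset.card_le_card h).trans (Finset.card_union_le _ _)
  have hc2 : (U₂.card : ℝ) ≤ 1 := by
    have h : U₂.card ≤ 1 := by
      rw [Finset.card_le_one]
      intro a ha b hb
      rw [hU₂, Finset.mem_filter] at ha hb
      exact rep_inf ha.2 hb.2
    exact_mod_cast h
  have hs : (U.card : ℝ) ≤ U₁.card + U₂.card := by exact_mod_cast hsplit
  refine hs.trans (add_le_add ?_ hc2)
  rw [← Finset.card_image_of_injOn (s := U₁) (f := fun p => p.rep 0 / p.rep 1)]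
  · refine h X _ ((le_max_left _ _).trans hX) ?_
    intro x hx
    obtain ⟨p, hp, rfl⟩ := Finset.mem_image.1 hx
    rw [hU₁, Finset.mem_filter] at hp
    obtain ⟨m0, m1⟩ := hp
    obtain ⟨⟨n1, n2, n3⟩, l, n4⟩ := (hUm p).1 m0
    have k3 : Height.logHeight p.rep ≤ X := by
      have := points_sub ((hUm p).1 m0).1
      rw [← hd, ← hXL] at this
      exact this
    have o1 := of_rep m1 n1
    obtain ⟨P, hP⟩ := (hA3 _ o1).1
    obtain ⟨H, hH⟩ : ∃ H : ℝ, H = hr (aff (p.rep 0 / p.rep 1)) := ⟨_, rfl⟩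
    have hHh : d * height p = H := by
      rw [hH, ← ht_rep, hd]
      exact mul_div_cancel₀ _ deg_pos.ne'
    have hH0 : 0 ≤ H := by rw [hH]; exact hr_aff_nonneg _
    have hh0 : 0 ≤ height p := by
      rw [← mul_nonneg_iff_of_pos_left hd0, hHh]
      exact hH0
    rw [← ht_rep] at hH
    have k4 : H ≤ X := by rw [hH]; exact k3
    have e2 : hr (aff (p.rep 0 / p.rep 1)) = H := by rw [hH, ← ht_rep]
    rw [e2]
    have hcop := tr_eq ((hA3 _ o1).2.1 P hP).1
    have hb3 : ∀ l, rl (P l) ≤ d * truncated T (α l) p ∧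
        d * truncated T (α l) p ≤ rl (P l) + Λ := by
      intro l
      rw [hd, hΛ]
      exact ncl_bounds hTS hα0 m1 n1 hP l
    refine ⟨o1, k4, P, hP, ?_, ?_⟩
    · rw [hcop]
      have t1 : ∑ l, rl (P l) ≤ ∑ l, d * truncated T (α l) p :=
        Finset.sum_le_sum fun l _ => (hb3 l).1
      rw [← Finset.mul_sum] at t1
      have t2 := mul_le_mul_of_nonneg_left n3 hd0.le
      have t3 : d * (((q : ℝ) - κ) * height p + c) = ((q : ℝ) - κ) * H + d * c := by
        rw [← hHh]
        ring
      have t4 : d * c ≤ d * |c| := mul_le_mul_of_nonneg_left (le_abs_self c) hd0.le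
      have t5 : (0 : ℝ) ≤ S.card := Nat.cast_nonneg _
      rw [hC₀]
      linarith
    · refine ⟨l, ?_⟩
      by_contra hno
      push Not at hno
      obtain ⟨n5, n6, -, n7, n8⟩ := hno
      apply n4
      rw [← hb] at n5 n7 ⊢
      have hScard : (0 : ℝ) ≤ S.card := Nat.cast_nonneg _
      have hεd : ε / (2 * d) ≤ ε / 2 := by
        rw [div_le_div_iff₀ (by positivity) (by norm_num)]
        nlinarith
      have hεH : ε / (2 * d) * H ≤ ε * H := by
        apply mul_le_mul_of_nonneg_right _ hH0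
        linarith
      have heX : 0 ≤ ε / (2 * d) * H := by positivity
      refine ⟨?_, ?_, ?_, ?_⟩
      · refine le_of_mul_le_mul_left ?_ hd0
        have e3 : d * |truncated T (α l) p - (1 - b) * height p| =
            |d * truncated T (α l) p - (1 - b) * H| := by
          rw [← abs_of_pos hd0, ← abs_mul, abs_of_pos hd0, mul_sub, ← hHh]
          congr 2
          ring
        have e4 : d * (ε * height p) = ε * H := by rw [← hHh]; ring
        rw [e3, e4]
        obtain ⟨b1, b2⟩ := hb3 l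
        have e5 : |d * truncated T (α l) p - (1 - b) * H| ≤ |rl (P l) - (1 - b) * H| + Λ := by
          have e6 : d * truncated T (α l) p - (1 - b) * H =
              (rl (P l) - (1 - b) * H) + (d * truncated T (α l) p - rl (P l)) := by ring
          rw [e6]
          refine (abs_add_le _ _).trans ?_
          rw [abs_of_nonneg (sub_nonneg.2 b1)]
          linarith
        rw [hC₀] at n5
        linarith
      · refine le_of_mul_le_mul_left ?_ hd0
        have e3 := ful_ge hTS hα0 m1 n1 hP l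
        rw [← hd, ← full_eq] at e3
        have e4 : d * ((1 - ε) * height p) = (1 - ε) * H := by rw [← hHh]; ring
        rw [e4]
        linarith
      · rw [Real.log_exp, ← hd, double_eq]
        obtain ⟨s1, s2⟩ := sqs_card hTS m1 hP l
        have e1 : √(X / Real.log X) ≤ d * √(L / Real.log L) := by
          have hlL : 0 < Real.log L := Real.log_pos (by linarith)
          have hlX : Real.log L ≤ Real.log X := by
            apply Real.log_le_log (by linarith)
            rw [hXL]
            nlinarith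
          rw [← Real.sqrt_sq hd0.le, ← Real.sqrt_mul (by positivity)]
          apply Real.sqrt_le_sqrt
          calc X / Real.log X ≤ X / Real.log L :=
                div_le_div_of_nonneg_left hX0.le hlL hlX
            _ = d * (L / Real.log L) := by rw [hXL]; ring
            _ ≤ d ^ 2 * (L / Real.log L) := by
                apply mul_le_mul_of_nonneg_right _ (by positivity)
                nlinarith
        have e2 : ε / (2 * d) * √(X / Real.log X) ≤ ε / 2 * √(L / Real.log L) := by
          calc ε / (2 * d) * √(X / Real.log X) ≤ ε / (2 * d) * (d * √(L / Real.log L)) :=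
                mul_le_mul_of_nonneg_left e1 (by positivity)
            _ = ε / 2 * √(L / Real.log L) := by field_simp
        have e3 := abs_sub_le (((sqf (P l)).support.card : ℝ))
          √(2 * b * X / Real.log X) √(2 * b * d * L / Real.log L)
        have e4 := abs_sub_le ((sqs T (α l) p).ncard : ℝ) (((sqf (P l)).support.card : ℝ))
          √(2 * b * d * L / Real.log L)
        have e5 : |((sqs T (α l) p).ncard : ℝ) - ((sqf (P l)).support.card : ℝ)| ≤ S.card := by
          rw [abs_of_nonneg (sub_nonneg.2 s1)]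
          linarith
        rw [hC₀] at n7
        linarith
      · rw [Real.log_exp, double_eq]
        have s1 := sqs_log hTS m1 hP l
        rw [← hΛ] at s1
        have e1 : ∑ᶠ (v : Pr K) (_ : v ∈ sqs T (α l) p), size v =
            (∑ᶠ (v : Pr K) (_ : v ∈ sqs T (α l) p), Real.log (Ideal.absNorm v.asIdeal : ℝ)) / d := by
          have hf := sqs_finite hTS m1 hP l
          rw [← hf.coe_toFinset, finsum_mem_coe_finset, finsum_mem_coe_finset, Finset.sum_div]
          refine Finset.sum_congr rfl fun v _ => ?_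
          rw [hd]
          rfl
        rw [e1, div_le_iff₀ hd0]
        have e2 : ε / (2 * d) * X = ε / 2 * L := by
          rw [hXL]
          field_simp
        rw [e2, hC₀] at n8
        have e3 : 0 ≤ ε * L := by positivity
        have e4 : ε * L ≤ ε * L * d := by nlinarith
        linarith
  · intro p hp p' hp' e
    rw [hU₁, Finset.mem_coe, Finset.mem_filter] at hp hp'
    exact rep_eq_of hp.2 hp'.2 e

/-- the lower bound for the number of all points with a small counting function -/
theorem points_ge (hq : 1 ≤ q) {T : Set (Pr K)}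
    (hT : T.Finite) {α : Fin q → Fin 2 → K} (hα0 : ∀ i, α i ≠ 0)
    (hα : ∀ i j, i ≠ j → α i 0 * α j 1 - α i 1 * α j 0 ≠ 0) {κ c ε : ℝ} (h0 : 0 < κ) (h1 : κ < 1)
    (hε : 0 < ε) (hε1 : ε < 1) :
    ∃ X₀ : ℝ, ∀ X : ℝ, X₀ ≤ X →
      Real.exp ((2 - κ) * X + (1 - ε) * (q * √(κ / q) * √(8 * X / Real.log X))) ≤
        ((Points T α κ c (Real.exp (X / Module.finrank ℚ K))).ncard : ℝ) := by
  classical
  have hd : (0 : ℝ) < Module.finrank ℚ K := deg_pos
  have hq0 : (0 : ℝ) < q := by exact_mod_cast hq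
  have hA : ∑ _l : Fin q, κ / q = κ := by
    rw [Finset.sum_const, Finset.card_univ, Fintype.card_fin, nsmul_eq_mul]
    field_simp
  obtain ⟨X₀, -, h⟩ := lowerJ (K := K) (basq_all K) (loj_all K) hq hT (κ := fun _ : Fin q => κ / q)
    (c / q) hα0 hα (fun _ => by positivity) (by rw [hA]; exact h0) (by rw [hA]; exact h1) hε hε1
  refine ⟨X₀, fun X hX => ?_⟩
  have hXd : (Module.finrank ℚ K : ℝ) * (X / Module.finrank ℚ K) = X := by field_simp
  have h2 := h (X / Module.finrank ℚ K) (by rw [hXd]; exact hX)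
  rw [hXd, hA, Finset.sum_const, Finset.card_univ, Fintype.card_fin, nsmul_eq_mul] at h2
  have e1 : √(8 * (κ / q) * X / Real.log X) = √(κ / q) * √(8 * X / Real.log X) := by
    rw [← Real.sqrt_mul (by positivity)]
    congr 1
    ring
  have e2 : q * (√(κ / q) * √(8 * X / Real.log X)) = q * √(κ / q) * √(8 * X / Real.log X) := by
    ring
  rw [e1, e2] at h2
  refine h2.trans ?_
  have hsub : JV T α (fun _ => κ / q) (c / q) (Real.exp (X / Module.finrank ℚ K)) ⊆
      Points T α κ c (Real.exp (X / Module.finrank ℚ K)) := by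
    rintro p ⟨m1, m2, m3⟩
    refine ⟨m1, m2, ?_⟩
    have k1 : ∑ l, truncated T (α l) p ≤ ∑ _l : Fin q, ((1 - κ / q) * height p + c / q) :=
      Finset.sum_le_sum fun l _ => m3 l
    rw [Finset.sum_const, Finset.card_univ, Fintype.card_fin, nsmul_eq_mul] at k1
    refine k1.trans (le_of_eq ?_)
    field_simp
  exact_mod_cast Set.ncard_le_ncard hsub (points_finite T α κ c _)

/-- **The defect is shared equally.** Let `K` be a number field of degree `d`, `T` a finite set of primes,
`α_1, …, α_q` (`q ≥ 2`) different points of `P¹(K)`, `0 < κ < 6 / 7` or `q = 3` and `0 < κ < 1`, `c` real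
and `ε > 0`. There is `η > 0` such that for all large `B` at most `exp (- η √(log B / log log B)) V(B)` of
the `V(B)` points `x ≠ α_l` with `H(x) ≤ B` and `N_T(x) ≤ (q - κ) h(x) + c` are not typical, up to `ε`,
with respect to one of the points `α_l`; `V(B)` is finite. -/
theorem result : ∀ (K : Type) [Field K] [NumberField K] (q : ℕ)
    (T : Set (HeightOneSpectrum (𝓞 K))) (α : Fin q → Fin 2 → K) (κ c ε : ℝ), T.Finite → 2 ≤ q →
    (∀ l, α l ≠ 0) → (∀ l l', l ≠ l' → α l 0 * α l' 1 - α l 1 * α l' 0 ≠ 0) → 0 < κ →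
    (κ < 6 / 7 ∨ (q = 3 ∧ κ < 1)) → 0 < ε →
    (∀ B : ℝ, (Points T α κ c B).Finite) ∧
    ∃ η : ℝ, 0 < η ∧ ∀ᶠ B : ℝ in atTop, ((Atypical T α κ c ε B).ncard : ℝ) ≤
      Real.exp (-(η * √(Real.log B / Real.log (Real.log B)))) * ((Points T α κ c B).ncard : ℝ) := by
  intro K _ _ q T α κ c ε hT hq hα0 hα h0 h1 hε
  refine ⟨points_finite T α κ c, ?_⟩
  have hq1 : 1 ≤ q := by omega
  have hq0 : (0 : ℝ) < q := by exact_mod_cast hq1
  obtain ⟨κ₁, hκ₁, hκκ, hbig⟩ : ∃ κ₁ : ℝ, κ₁ ≤ 1 ∧ κ < κ₁ ∧ S_BIGQ K q κ₁ := by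
    rcases h1 with h | ⟨rfl, h⟩
    · exact ⟨6 / 7, by norm_num, h, Pool.Agent.N654.QP.bigq K q hq⟩
    · exact ⟨1, le_rfl, h, Pool.Agent.N654.QP.bigq3 K⟩
  obtain ⟨d, hd⟩ : ∃ d : ℝ, d = Module.finrank ℚ K := ⟨_, rfl⟩
  have hd0 : 0 < d := by rw [hd]; exact deg_pos
  have hd1 : 1 ≤ d := by rw [hd]; exact deg_one
  obtain ⟨g, hg, X₁, hX₁⟩ := atypical_le (K := K) (c := c) hq1 hκ₁ hbig hT hα0 hα h0 hκκ hε
  have hs : 0 < q * √(κ / q) := by positivity
  obtain ⟨η, hη, hev⟩ := ratio (κ := κ) (s := q * √(κ / q))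
    (g := min g (q * √(κ / q))) (L₀ := 0) (by linarith) (lt_min hg hs)
    (min_le_right _ _) le_rfl
    (M := fun X => ((Atypical T α κ c ε (Real.exp (X / Module.finrank ℚ K))).ncard : ℝ))
    (N := fun X => ((Points T α κ c (Real.exp (X / Module.finrank ℚ K))).ncard : ℝ))
    ⟨X₁, fun X hX => by
      refine (hX₁ X hX).trans ?_
      have k1 : (q * √(κ / q) - g) * √(8 * X / Real.log X) ≤
          (q * √(κ / q) - min g (q * √(κ / q))) * √(8 * X / Real.log X) :=
        mul_le_mul_of_nonneg_right (by linarith [min_le_left g (q * √(κ / q))])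
          (Real.sqrt_nonneg _)
      have k2 := Real.exp_le_exp.2 (add_le_add_right k1 ((2 - κ) * X))
      linarith⟩
    (fun ε' hε' hε1 => by
      obtain ⟨X₀, hX₀⟩ := points_ge (K := K) (c := c) hq1 hT hα0 hα h0 (by linarith) hε' hε1
      refine ⟨X₀, fun X hX => ?_⟩
      rw [add_zero]
      exact hX₀ X hX)
  refine ⟨η, hη, ?_⟩
  rw [← hd] at hev
  have ht : Tendsto (fun B : ℝ => d * Real.log B) atTop atTop :=
    Real.tendsto_log_atTop.const_mul_atTop hd0
  filter_upwards [ht.eventually hev, eventually_gt_atTop (0 : ℝ),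
    Real.tendsto_log_atTop.eventually (ratio_mono hd1)] with B hB hB0 hm
  rw [mul_div_cancel_left₀ _ hd0.ne', Real.exp_log hB0] at hB
  refine hB.trans ?_
  apply mul_le_mul_of_nonneg_right _ (Nat.cast_nonneg _)
  apply Real.exp_le_exp.2
  have := mul_le_mul_of_nonneg_left hm hη.le
  linarith

end Pool.Agent.Results.MP_4d5ce1_nt.SharedDefect
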